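import Pool.Agent.H21.BD.Fin
import Pool.Agent.H16.TT.Ev
import Pool.Agent.H16.LP.Disp

/-!
# One long axis in a full body

`Bx c X i0 m`: the box with the axis `2 ^ (-m)` in the direction `i0` and `2 ^ (-X)` in the others.
-/

set_option autoImplicit false

namespace Pool.LV16

open Finset Real Matrix
open Pool.Agent.H49.Ent Pool.Agent.H32.Dense Pool.STK Pool.POT Pool.FAD
open Pool.LPX (tp)
open Pool.TT37 (dd)

variable {c : ℕ}

/-- The box with one long axis. -/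
noncomputable def Bx (c X : ℕ) (i0 : Fin c) (m : ℕ) : Matrix (Fin c) (Fin c) ℝ :=
  Matrix.diagonal fun i => ((2 : ℝ) ^ (if i = i0 then m else X))⁻¹

theorem Bx_det (c X : ℕ) (i0 : Fin c) (m : ℕ) : (Bx c X i0 m).det ≠ 0 :=
  det_diag fun _ => by positivity

theorem Bx_lv (c X : ℕ) (i0 : Fin c) (m : ℕ) :
    lv (Bx c X i0 m) - lv (Tx c X) = ((X : ℝ) - m) * Real.log 2 := by
  have h : ∀ d : Fin c → ℕ, lv (Matrix.diagonal fun i => ((2 : ℝ) ^ d i)⁻¹) =
      ∑ i, -((d i : ℝ) * Real.log 2) := by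
    intro d
    unfold lv
    rw [Matrix.det_diagonal, abs_of_pos (Finset.prod_pos fun _ _ => by positivity),
      Real.log_prod (fun _ _ => by positivity)]
    refine Finset.sum_congr rfl fun i _ => ?_
    rw [Real.log_inv, Real.log_pow]
  have h1 := h fun i => if i = i0 then m else X
  have h2 := h fun _ => X
  have e1 : lv (Bx c X i0 m) = ∑ i, -(((if i = i0 then m else X : ℕ) : ℝ) * Real.log 2) := h1
  have e2 : lv (Tx c X) = ∑ _i : Fin c, -((X : ℝ) * Real.log 2) := h2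
  rw [e1, e2, ← Finset.sum_sub_distrib]
  rw [Finset.sum_eq_single i0]
  · rw [if_pos rfl]
    ring
  · intro i _ hi
    rw [if_neg hi]
    ring
  · intro h
    exact absurd (Finset.mem_univ _) h

theorem Bx_cl {X m : ℕ} (hm : m ≤ X) (i0 : Fin c) (N : Fin c → ℤ) (i : Fin c) :
    cl (Bx c X i0 m) (xv X N) i = if i = i0 then tp X m (N i) else N i := by
  unfold Bx
  rw [Pool.FEK74.cl_diag _ (fun _ => by positivity)]
  unfold xv
  by_cases hi : i = i0
  · rw [if_pos hi, if_pos hi]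
    have e1 : (N i : ℝ) / 2 ^ X / ((2 : ℝ) ^ m)⁻¹ = (N i : ℝ) / ((2 ^ (X - m) : ℕ) : ℝ) := by
      have h1 : (2 : ℝ) ^ X = 2 ^ m * 2 ^ (X - m) := by
        rw [← pow_add]
        congr 1
        omega
      rw [h1]
      push_cast
      field_simp
    rw [e1, Int.floor_div_natCast, Int.floor_intCast]
    unfold tp
    push_cast
    rfl
  · rw [if_neg hi, if_neg hi]
    have : (N i : ℝ) / 2 ^ X / ((2 : ℝ) ^ X)⁻¹ = (N i : ℝ) := by field_simp
    rw [this, Int.floor_intCast]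

theorem Bx_inc {X m : ℕ} {A : Matrix (Fin c) (Fin c) ℝ} {K : ℝ} (hK : 1 ≤ K)
    (hinv : ∀ i j, |A⁻¹ i j| ≤ 2 ^ X) (i0 : Fin c) (h : ∀ i, |A⁻¹ i i0| ≤ K * 2 ^ m) :
    Inc (c * K) (Bx c X i0 m) A := by
  have hX : (0 : ℝ) < 2 ^ X := by positivity
  have hm : (0 : ℝ) < 2 ^ m := by positivity
  intro i
  have h1 : ∀ j, |(A⁻¹ * Bx c X i0 m) i j| ≤ K := by
    intro j
    unfold Bx
    rw [Matrix.mul_diagonal, abs_mul]
    by_cases hj : j = i0
    · rw [if_pos hj, abs_of_pos (inv_pos.2 hm), hj]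
      have h2 := mul_le_mul_of_nonneg_right (h i) (inv_pos.2 hm).le
      rwa [mul_assoc, mul_inv_cancel₀ hm.ne', mul_one] at h2
    · rw [if_neg hj, abs_of_pos (inv_pos.2 hX)]
      have h2 := mul_le_mul_of_nonneg_right (hinv i j) (inv_pos.2 hX).le
      rw [mul_inv_cancel₀ hX.ne'] at h2
      exact h2.trans hK
  calc ∑ j, |(A⁻¹ * Bx c X i0 m) i j| ≤ ∑ _j : Fin c, K := Finset.sum_le_sum fun j _ => h1 j
    _ = c * K := by rw [Finset.sum_const, Finset.card_univ, Fintype.card_fin, nsmul_eq_mul]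

/-- A vector in the direction `i0` inside the body. -/
theorem col_le {A : Matrix (Fin c) (Fin c) ℝ} {K : ℝ} {m : ℕ} (i0 : Fin c) (a : Fin c → ℝ)
    (ha : ∀ i, i ≠ i0 → a i = 0) (h : ∀ i, |(A⁻¹ *ᵥ a) i| ≤ K) (hm : ((2 : ℝ) ^ m)⁻¹ < |a i0|)
    (i : Fin c) : |A⁻¹ i i0| ≤ K * 2 ^ m := by
  have hm2 : (0 : ℝ) < 2 ^ m := by positivity
  have e1 : (A⁻¹ *ᵥ a) i = A⁻¹ i i0 * a i0 := by
    show ∑ j, A⁻¹ i j * a j = _
    rw [Finset.sum_eq_single i0]
    · intro j _ hj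
      rw [ha j hj, mul_zero]
    · intro h
      exact absurd (Finset.mem_univ _) h
  have h1 := h i
  rw [e1, abs_mul] at h1
  have h2 : |A⁻¹ i i0| * ((2 : ℝ) ^ m)⁻¹ ≤ K :=
    (mul_le_mul_of_nonneg_left hm.le (abs_nonneg _)).trans h1
  rwa [← div_eq_mul_inv, div_le_iff₀ hm2] at h2

/-- The divided difference of a component which is zero. -/
theorem dd_zero {T : Type} {k : ℕ} (n : ℕ) (tau : T → ℤ) (E : T → Fin k → Fin c → ℝ) (u : Fin k)
    (t : Fin (n + 2) → T) (i : Fin c) (h : ∀ j, E (t j) u i = 0) : dd n tau E u t i = 0 := by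
  unfold dd
  split_ifs
  · refine Finset.sum_eq_zero fun j _ => ?_
    rw [h, mul_zero]
  · rfl

variable {Ω τ : Type} [Fintype Ω] {q : Ω → ℝ}

/-- Digits. -/
theorem CH_tp (hq : IsLaw q) (V : Ω → ℤ) (W : Ω → τ) {X a b : ℕ} (hab : a ≤ b) (hb : b ≤ X)
    (h : Det q W fun ω => tp X a (V ω)) :
    CH q (fun ω => tp X b (V ω)) W ≤ ((b : ℝ) - a) * Real.log 2 := by
  have h0 : CH q (fun ω => tp X b (V ω)) W ≤
      CH q (fun ω => tp X b (V ω)) (fun ω => tp X a (V ω)) := CH_mono_cond hq.nonneg h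
  refine h0.trans ((CH_le_card hq.nonneg hq.sum_one _ _
    (fun w => Finset.Ico (w * 2 ^ (b - a)) (w * 2 ^ (b - a) + 2 ^ (b - a))) ?_).trans
      (le_of_eq ?_))
  · intro ω _
    rw [Finset.mem_Ico]
    have e : tp X a (V ω) = tp X b (V ω) / 2 ^ (b - a) := by
      unfold tp
      rw [Int.ediv_ediv_of_nonneg (by positivity), ← pow_add]
      congr 2
      omega
    have hz : (0 : ℤ) < 2 ^ (b - a) := by positivity
    have e1 := Int.ediv_mul_le (tp X b (V ω)) hz.ne'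
    have e2 := Int.lt_ediv_add_one_mul_self (tp X b (V ω)) hz
    rw [e]
    constructor
    · exact e1
    · linarith
  · have h3 : ∀ w : ℤ, Real.log (((Finset.Ico (w * 2 ^ (b - a))
        (w * 2 ^ (b - a) + 2 ^ (b - a))).card : ℕ) : ℝ) = ((b : ℝ) - a) * Real.log 2 := by
      intro w
      rw [Int.card_Ico]
      have : (w * 2 ^ (b - a) + 2 ^ (b - a) - w * 2 ^ (b - a)).toNat = 2 ^ (b - a) := by
        rw [add_sub_cancel_left]
        have : ((2 : ℤ) ^ (b - a)) = ((2 ^ (b - a) : ℕ) : ℤ) := by push_cast; rfl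
        rw [this, Int.toNat_natCast]
      rw [this]
      push_cast
      rw [Real.log_pow, Nat.cast_sub hab]
    simp only [h3]
    rw [Ex_const hq.sum_one]

end Pool.LV16
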