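import Pool.Agent.H16.LV.Box

/-!
# Coefficients of one direction are polynomials in the time

In a picture of degree `n` (`Pool.BD64.QHd`) whose coefficients `E` move only the place `i0`, a row
of the place `i0` in one block forces all divided differences of order `n + 1` of `E` to be small,
and `E` is a polynomial of degree `n` in the time with coefficients which are functions of the line.
-/

set_option autoImplicit false

namespace Pool.LV16

open Finset Real Matrix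
open Pool.Agent.H49.Ent Pool.Agent.H32.Dense Pool.STK Pool.POT Pool.FAD Pool.SLO Pool.BD64
open Pool.K2S (Pe)
open Pool.BFL (Pb)
open Pool.LPX (tp)
open Pool.TT37 (dd)
open Pool.TQ (cond_le cond_law CH_ev up_up law_ev)

variable {c k n : ℕ}

/-- The row of the block `(k0, k1]` of the place `i0`, on all events of mass at least `π₀`. -/
def RowN (H : QHd c k n) (i0 : Fin c) (k0 k1 X : ℕ) (cc π₀ : ℝ) : Prop :=
  ∀ B : H.Ω → Prop, π₀ ≤ Pe H.p B → 0 < Pe H.p B →
    CH (cond H.p B True) (fun ω => tp X k1 (H.hgt ω i0))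
      (fun ω => (tp X k0 (H.hgt ω i0),
        ((fun i : {i : Fin c // i ≠ i0} => H.hgt ω i), (H.th ω, H.b ω)))) ≤
      (1 - cc) * (((k1 : ℝ) - k0) * Real.log 2)

open Classical in
theorem dd_step (H : QHd c k n) (hp : IsLaw H.p) {i0 : Fin c} {X k0 k1 : ℕ} (h01 : k0 ≤ k1)
    (h1X : k1 ≤ X) (hE : ∀ ω u i, i ≠ i0 → H.E (H.th ω) u i = 0) {cc π₀ : ℝ} (hcc : cc ≤ 1)
    (hπ : 0 ≤ π₀) (hrow : RowN H i0 k0 k1 X cc π₀)
    {A0 : (Fin (n + 2) → H.Tt) → Matrix (Fin c) (Fin c) ℝ} {K : ℝ} (hK : 1 ≤ K)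
    (hA : ∀ t, (A0 t).det ≠ 0 ∧ ∀ i j, |(A0 t)⁻¹ i j| ≤ 2 ^ X)
    (hdd : ∀ (ω : Fin (n + 2) → H.Ω) (u : Fin k) (b : Fin c),
        |((A0 fun j => H.th (ω j))⁻¹ *ᵥ dd n H.tau H.E u fun j => H.th (ω j)) b| ≤ K)
    {δ : ℝ} (hDF : DF (tup H.p H.line (n + 2)) (fun _ => Tx c X)
        (fun w => A0 (fun j => H.th (w j.succ))) (fun w => xv X (H.hgt (w 0)))
        (fun w => (H.b (w 0), (H.th (w 0), fun j : Fin (n + 2) => H.th (w j.succ)))) ≤ δ)
    {P : ℝ} (hP : P = Pb (tup H.p H.line (n + 2)) (fun w => ∃ u i,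
      ((2 : ℝ) ^ k0)⁻¹ < |dd n H.tau H.E u (fun j => H.th (w j.succ)) i|)) (hP0 : 0 < P)
    {M : ℕ} (hM : 0 < M) :
    P * (((X : ℝ) - k0) * Real.log 2) ≤ δ + Cc c (c * K) + P * (((X : ℝ) - k1) * Real.log 2 +
      ((1 - cc) * (((k1 : ℝ) - k0) * Real.log 2) +
        (1 / P / M + 1 / P * π₀) * (((k1 : ℝ) - k0) * Real.log 2) + Real.log (M + 1))) := by
  set q := tup H.p H.line (n + 2) with hqdef
  have hq : IsLaw q := tup_isLaw hp H.line (n + 2)
  have hL : 0 < Real.log 2 := Real.log_pos (by norm_num)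
  obtain ⟨ts, hts⟩ : ∃ ts : (Fin (n + 2 + 1) → H.Ω) → Fin (n + 2) → H.Tt,
    ts = fun w j => H.th (w j.succ) := ⟨_, rfl⟩
  obtain ⟨G, hG⟩ : ∃ G : (Fin (n + 2 + 1) → H.Ω) → Prop, G = fun w => ∃ u i,
      ((2 : ℝ) ^ k0)⁻¹ < |dd n H.tau H.E u (fun j => H.th (w j.succ)) i| := ⟨_, rfl⟩
  obtain ⟨Ctx, hCtx⟩ : ∃ Ctx : (Fin (n + 2 + 1) → H.Ω) →
      H.B × (H.Tt × (Fin (n + 2) → H.Tt)), Ctx = fun w =>
      (H.b (w 0), (H.th (w 0), fun j : Fin (n + 2) => H.th (w j.succ))) := ⟨_, rfl⟩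
  obtain ⟨m, hm⟩ : ∃ m : (Fin (n + 2 + 1) → H.Ω) → ℕ, m = fun w => if G w then k0 else X :=
    ⟨_, rfl⟩
  obtain ⟨W, hW⟩ : ∃ W : (Fin (n + 2 + 1) → H.Ω) → Matrix (Fin c) (Fin c) ℝ,
    W = fun w => Bx c X i0 (m w) := ⟨_, rfl⟩
  rw [← hG] at hP
  have hGd : ∀ w w', Ctx w = Ctx w' → G w = G w' := by
    intro w w' e
    rw [hCtx] at e
    simp only [Prod.mk.injEq] at e
    have e2 := e.2.2
    rw [hG]
    beta_reduce
    rw [e2]
  have hmd : ∀ w w', Ctx w = Ctx w' → m w = m w' := by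
    intro w w' e
    rw [hm]
    beta_reduce
    rw [hGd w w' e]
  have hmX : ∀ w, m w ≤ X := by
    intro w
    rw [hm]
    beta_reduce
    split_ifs
    · omega
    · exact le_rfl
  have hdW : Det q Ctx W := by
    intro w w' _ _ e
    rw [hW]
    beta_reduce
    rw [hmd w w' e]
  have hdA : Det q Ctx (fun w => A0 (fun j => H.th (w j.succ))) := by
    intro w w' _ _ e
    rw [hCtx] at e
    simp only [Prod.mk.injEq] at e
    beta_reduce
    rw [e.2.2]
  have hInc : ∀ w, Inc (c * K) (W w) (A0 (fun j => H.th (w j.succ))) := by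
    intro w
    rw [hW]
    refine Bx_inc hK (hA _).2 i0 fun i => ?_
    by_cases hw : G w
    · have e1 : m w = k0 := by
        rw [hm]
        exact if_pos hw
      rw [e1]
      have hw' := hw
      rw [hG] at hw'
      obtain ⟨u, i', hi'⟩ := hw'
      have hz : ∀ i, i ≠ i0 →
          dd n H.tau H.E u (fun j => H.th (w j.succ)) i = 0 := fun i hi =>
        dd_zero n H.tau H.E u _ i fun j => hE _ u i hi
      have hi0 : i' = i0 := by
        by_contra hne
        rw [hz i' hne, abs_zero] at hi'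
        have : (0 : ℝ) < ((2 : ℝ) ^ k0)⁻¹ := by positivity
        linarith
      rw [hi0] at hi'
      exact col_le i0 _ hz (fun b => hdd (fun j => w j.succ) u b) hi' i
    · have e1 : m w = X := by
        rw [hm]
        exact if_neg hw
      rw [e1]
      have h1 := (hA (fun j => H.th (w j.succ))).2 i i0
      have h2 : (0 : ℝ) < 2 ^ X := by positivity
      nlinarith
  have hcK : 0 ≤ (c : ℝ) * K := by positivity
  have h1 := DF_mono hq.nonneg hq.sum_one (T := fun _ => Tx c X) (W := W)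
    (S := fun w => A0 (fun j => H.th (w j.succ))) (fun w => xv X (H.hgt (w 0))) Ctx hdW hdA
    (fun w => by rw [hW]; exact Bx_det c X i0 _) (fun w => (hA _).1) hcK hInc
  rw [DF_xv q X W] at h1
  rw [← hCtx] at hDF
  have hPT : law q G True = P := by
    rw [hP]
    unfold law Pb
    refine Finset.sum_congr rfl fun w _ => ?_
    by_cases hw : G w <;> simp [hw]
  -- the volume
  have h2 : Ex q (fun w => lv (W w) - lv (Tx c X)) = P * (((X : ℝ) - k0) * Real.log 2) := by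
    have e1 : (fun w => lv (W w) - lv (Tx c X)) =
        fun w => if G w then ((X : ℝ) - k0) * Real.log 2 else 0 := by
      funext w
      rw [hW, Bx_lv, hm]
      beta_reduce
      by_cases hw : G w
      · rw [if_pos hw, if_pos hw]
      · rw [if_neg hw, if_neg hw]
        ring
    rw [e1, hP]
    unfold Ex Pb
    rw [Finset.sum_mul]
    refine Finset.sum_congr rfl fun w _ => ?_
    by_cases hw : G w
    · simp only [if_pos hw]
    · simp only [if_neg hw, mul_zero, zero_mul]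
  rw [h2] at h1
  -- the entropy
  obtain ⟨Cl, hCl⟩ : ∃ Cl : (Fin (n + 2 + 1) → H.Ω) → (Fin c → ℤ),
    Cl = fun w => cl (W w) (xv X (H.hgt (w 0))) := ⟨_, rfl⟩
  have hClv : ∀ w i, Cl w i = if i = i0 then tp X (m w) (H.hgt (w 0) i) else H.hgt (w 0) i := by
    intro w i
    rw [hCl, hW]
    exact Bx_cl (hmX w) i0 _ i
  have h3 := CH_ev hq.nonneg (G := G) (fun w => H.hgt (w 0)) (fun w => (Cl w, Ctx w))
    (fun w w' _ _ e => hGd w w' (Prod.ext_iff.1 e).2)
  have h4 : CH (cond q G False) (fun w => H.hgt (w 0)) (fun w => (Cl w, Ctx w)) = 0 := by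
    refine CH_eq_zero (cond_nonneg hq.nonneg G False) ?_
    intro w w' a a' e
    have g1 : ¬ G w := by
      have := ((cond_pos_iff hq.nonneg G False w).1 a).2
      rw [this]
      exact id
    have g2 : ¬ G w' := by
      have := ((cond_pos_iff hq.nonneg G False w').1 a').2
      rw [this]
      exact id
    have m1 : m w = X := by rw [hm]; exact if_neg g1
    have m2 : m w' = X := by rw [hm]; exact if_neg g2
    funext i
    have e1 := congrFun (Prod.ext_iff.1 e).1 i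
    simp only at e1
    rw [hClv, hClv, m1, m2] at e1
    by_cases hi : i = i0
    · rw [if_pos hi, if_pos hi, Pool.LPX.tp_self, Pool.LPX.tp_self] at e1
      exact e1
    · rw [if_neg hi, if_neg hi] at e1
      exact e1
  -- the law given `G`
  have hPG : 0 < Pe q G := lt_of_lt_of_eq hP0 hPT.symm
  have hr : IsLaw (cond q G True) := cond_law hq.nonneg hPG
  have hrG : ∀ w, 0 < cond q G True w → G w := fun w a => by
    have := ((cond_pos_iff hq.nonneg G True w).1 a).2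
    rw [this]
    trivial
  have hrm : ∀ w, 0 < cond q G True w → m w = k0 := fun w a => by
    rw [hm]
    exact if_pos (hrG w a)
  obtain ⟨A1, hA1⟩ : ∃ A1 : (Fin (n + 2 + 1) → H.Ω) → ℤ,
    A1 = fun w => tp X k1 (H.hgt (w 0) i0) := ⟨_, rfl⟩
  have h5 := CH_le_add hr.nonneg (fun w => H.hgt (w 0)) A1 (fun w => (Cl w, Ctx w))
  have h6 : CH (cond q G True) A1 (fun w => (Cl w, Ctx w)) ≤
      CH (cond q G True) A1 (fun w => (tp X k0 (H.hgt (w 0) i0),
        ((fun i : {i : Fin c // i ≠ i0} => H.hgt (w 0) i), (H.th (w 0), H.b (w 0))))) := by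
    refine CH_mono_cond hr.nonneg fun w w' a a' e => ?_
    have e1 := (Prod.ext_iff.1 e).1
    have e2 := (Prod.ext_iff.1 e).2
    simp only at e1 e2
    rw [hCtx] at e2
    simp only [Prod.mk.injEq] at e2
    have f1 := congrFun e1 i0
    rw [hClv, hClv, if_pos rfl, if_pos rfl, hrm w a, hrm w' a'] at f1
    refine Prod.ext f1 (Prod.ext ?_ (Prod.ext e2.2.1 e2.1))
    funext i
    have f2 := congrFun e1 i
    rw [hClv, hClv, if_neg i.2, if_neg i.2] at f2
    exact f2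
  have h7 : CH (cond q G True) (fun w => H.hgt (w 0)) (fun w => (A1 w, (Cl w, Ctx w))) ≤
      ((X : ℝ) - k1) * Real.log 2 := by
    have e1 : CH (cond q G True) (fun w => H.hgt (w 0)) (fun w => (A1 w, (Cl w, Ctx w))) =
        CH (cond q G True) (fun w => tp X X (H.hgt (w 0) i0))
          (fun w => (A1 w, (Cl w, Ctx w))) := by
      refine CH_congr hr.nonneg ?_ ?_ (fun _ _ _ _ h => h) (fun _ _ _ _ h => h)
      · intro w w' _ _ e
        have := congrFun (Prod.ext_iff.1 e).1 i0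
        simp only at this
        beta_reduce
        rw [this]
      · intro w w' a a' e
        have e1 := (Prod.ext_iff.1 e).1
        have e2 := (Prod.ext_iff.1 (Prod.ext_iff.1 (Prod.ext_iff.1 e).2).2).1
        simp only [Pool.LPX.tp_self] at e1 e2
        funext i
        by_cases hi : i = i0
        · rw [hi]
          exact e1
        · have f2 := congrFun e2 i
          rw [hClv, hClv, if_neg hi, if_neg hi] at f2
          exact f2
    rw [e1]
    refine CH_tp hr (fun w => H.hgt (w 0) i0) _ h1X le_rfl ?_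
    intro w w' _ _ e
    have := (Prod.ext_iff.1 e).1
    rw [hA1] at this
    exact this
  have hD0 : 0 ≤ ((k1 : ℝ) - k0) * Real.log 2 := by
    have : (k0 : ℝ) ≤ k1 := by exact_mod_cast h01
    exact mul_nonneg (by linarith) hL.le
  have h8 : CH (cond q G True) A1 (fun w => (tp X k0 (H.hgt (w 0) i0),
        ((fun i : {i : Fin c // i ≠ i0} => H.hgt (w 0) i), (H.th (w 0), H.b (w 0))))) ≤
      (1 - cc) * (((k1 : ℝ) - k0) * Real.log 2) +
        (1 / P / M + 1 / P * π₀) * (((k1 : ℝ) - k0) * Real.log 2) + Real.log (M + 1) := by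
    have key := up_up (p := q) (p' := H.p) (s := cond q G True) (f := fun w => w 0)
      (im_tup hp.nonneg H.line (n + 2) 0) hp hr (F := 1 / P) (m₀ := π₀)
      (b := (1 - cc) * (((k1 : ℝ) - k0) * Real.log 2)) (G := ((k1 : ℝ) - k0) * Real.log 2)
      (by positivity) (fun w => by rw [← hPT]; exact cond_le hq.nonneg w) hπ
      (mul_nonneg (by linarith) hD0) hD0 (fun ω => tp X k1 (H.hgt ω i0))
      (fun ω => (tp X k0 (H.hgt ω i0),
        ((fun i : {i : Fin c // i ≠ i0} => H.hgt ω i), (H.th ω, H.b ω)))) hrow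
      (fun q' hq' _ => CH_tp hq' (fun ω => H.hgt ω i0) _ h01 h1X
        fun w w' _ _ e => (Prod.ext_iff.1 e).1) hM
    rw [hA1]
    exact key
  have h10 : CH q (fun w => H.hgt (w 0)) (fun w => (cl (W w) (xv X (H.hgt (w 0))), Ctx w)) =
      CH q (fun w => H.hgt (w 0)) (fun w => (Cl w, Ctx w)) := by rw [hCl]
  rw [h10] at h1
  have h9 : CH q (fun w => H.hgt (w 0)) (fun w => (Cl w, Ctx w)) ≤
      P * (((X : ℝ) - k1) * Real.log 2 + ((1 - cc) * (((k1 : ℝ) - k0) * Real.log 2) +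
        (1 / P / M + 1 / P * π₀) * (((k1 : ℝ) - k0) * Real.log 2) + Real.log (M + 1))) := by
    rw [h3, h4, mul_zero, add_zero, hPT]
    exact mul_le_mul_of_nonneg_left (by linarith) hP0.le
  linarith

/-- **The divided differences are small.** -/
theorem dd_small (c k n : ℕ) (hn : 1 ≤ n) {cc ε κ : ℝ} (hcc : 0 < cc) (hcc1 : cc ≤ 1)
    (hε : 0 < ε) (hκ : 0 < κ) :
    ∃ π₀ : ℝ, 0 < π₀ ∧ ∃ io : ℝ, 0 < io ∧ ∀ C : ℝ, 1 ≤ C → ∃ X0 : ℕ,
    ∀ (H : QHd c k n) (i0 : Fin c) (X k0 k1 : ℕ), X0 ≤ X → k0 ≤ k1 → k1 ≤ X →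
      κ * X ≤ (k1 : ℝ) - k0 → H.OkNS X C (io * X) →
      (∀ ω u i, i ≠ i0 → H.E (H.th ω) u i = 0) → RowN H i0 k0 k1 X cc π₀ →
      Pb (tup H.p H.line (n + 2)) (fun w => ∃ u i,
        ((2 : ℝ) ^ k0)⁻¹ < |dd n H.tau H.E u (fun j => H.th (w j.succ)) i|) ≤ ε := by
  have hL : 0 < Real.log 2 := Real.log_pos (by norm_num)
  obtain ⟨M, hM⟩ := exists_nat_gt (4 / (ε * cc))
  have hec : 0 < ε * cc := by positivity
  have hM0 : (0 : ℝ) < M := lt_trans (by positivity) hM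
  have hM1 : 0 < M := by exact_mod_cast hM0
  have hMi : 1 / (M : ℝ) ≤ ε * cc / 4 := by
    rw [div_le_iff₀ hM0]
    rw [div_lt_iff₀ hec] at hM
    linarith
  obtain ⟨io, hio, hB⟩ := body_ds c k n hn (ε * cc * κ * Real.log 2 / 4) (by positivity)
  refine ⟨ε * cc / 4, by positivity, io, hio, fun C hC => ?_⟩
  obtain ⟨K1, X1, hB⟩ := hB C hC
  obtain ⟨K, hK⟩ : ∃ K, K = max 1 K1 := ⟨_, rfl⟩
  have hK1 : 1 ≤ K := by rw [hK]; exact le_max_left _ _
  obtain ⟨X2, hX2⟩ := exists_nat_gt ((Cc c (c * K) + Real.log (M + 1)) * 4 /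
    (ε * cc * κ * Real.log 2))
  refine ⟨max X1 X2, fun H i0 X k0 k1 hX h01 h1X hkap hOk hE hrow => ?_⟩
  obtain ⟨A0, hA, hdd, hDF⟩ := hB H X ((le_max_left _ _).trans hX) hOk
  have hp := hOk.law
  have hq : IsLaw (tup H.p H.line (n + 2)) := tup_isLaw hp H.line (n + 2)
  by_contra hcon
  push Not at hcon
  obtain ⟨P, hP⟩ : ∃ P, P = Pb (tup H.p H.line (n + 2)) (fun w => ∃ u i,
        ((2 : ℝ) ^ k0)⁻¹ < |dd n H.tau H.E u (fun j => H.th (w j.succ)) i|) := ⟨_, rfl⟩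
  rw [← hP] at hcon
  have hP0 : 0 < P := hε.trans hcon
  have hP1 : P ≤ 1 := by
    rw [hP, ← hq.sum_one]
    unfold Pb
    refine Finset.sum_le_sum fun w _ => ?_
    split_ifs
    · exact le_rfl
    · exact hq.nonneg w
  have h1 := dd_step H hp h01 h1X hE hcc1 (by positivity : (0 : ℝ) ≤ ε * cc / 4) hrow hK1
    (fun t => ⟨(hA t).1, (hA t).2.2⟩)
    (fun ω u b => (hdd ω u b).trans (by rw [hK]; exact le_max_right _ _)) hDF hP hP0 hM1
  have hlM : 0 ≤ Real.log (M + 1) := Real.log_nonneg (by linarith)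
  obtain ⟨D, hD⟩ : ∃ D, D = ((k1 : ℝ) - k0) * Real.log 2 := ⟨_, rfl⟩
  have hXX : κ * X * Real.log 2 ≤ D := by
    rw [hD]
    exact mul_le_mul_of_nonneg_right hkap hL.le
  have hX0 : (0 : ℝ) ≤ X := Nat.cast_nonneg X
  have hD0 : 0 ≤ D := le_trans (by positivity) hXX
  have e1 : ((X : ℝ) - k0) * Real.log 2 = D + ((X : ℝ) - k1) * Real.log 2 := by
    rw [hD]
    ring
  rw [← hD, e1] at h1
  have e2 : P * (((X : ℝ) - k1) * Real.log 2 + ((1 - cc) * D +
      (1 / P / M + 1 / P * (ε * cc / 4)) * D + Real.log (M + 1))) =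
      P * (((X : ℝ) - k1) * Real.log 2) + (1 - cc) * (P * D) + (1 / M + ε * cc / 4) * D +
        P * Real.log (M + 1) := by
    field_simp
    ring
  rw [e2] at h1
  have e3 : (1 / (M : ℝ) + ε * cc / 4) * D ≤ ε * cc / 2 * D :=
    mul_le_mul_of_nonneg_right (by linarith) hD0
  have e4 : P * Real.log (M + 1) ≤ Real.log (M + 1) := by nlinarith
  have e5 : ε * cc * D ≤ cc * (P * D) := by
    have := mul_le_mul_of_nonneg_right hcon.le (mul_nonneg hcc.le hD0)
    linarith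
  have e6 : ε * cc / 2 * (κ * X * Real.log 2) ≤ ε * cc / 2 * D :=
    mul_le_mul_of_nonneg_left hXX (by positivity)
  have e7 : (X2 : ℝ) ≤ X := by exact_mod_cast (le_max_right _ _).trans hX
  have hden : 0 < ε * cc * κ * Real.log 2 := by positivity
  rw [div_lt_iff₀ hden] at hX2
  have e8 : (X2 : ℝ) * (ε * cc * κ * Real.log 2) ≤ X * (ε * cc * κ * Real.log 2) :=
    mul_le_mul_of_nonneg_right e7 hden.le
  have e9 : ε * cc * κ * Real.log 2 / 4 * X = X * (ε * cc * κ * Real.log 2) / 4 := by ring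
  have e10 : ε * cc / 2 * (κ * X * Real.log 2) = X * (ε * cc * κ * Real.log 2) / 2 := by ring
  linarith

/-- **The coefficients of one direction are polynomials in the time.** -/
theorem qh_poly (c k n : ℕ) (hn : 1 ≤ n) {cc ε κ s : ℝ} (hcc : 0 < cc) (hcc1 : cc ≤ 1)
    (hε : 0 < ε) (hκ : 0 < κ) (hs : 0 < s) (hs1 : s ≤ 1) :
    ∃ π₀ : ℝ, 0 < π₀ ∧ ∃ io : ℝ, 0 < io ∧ ∀ C : ℝ, 1 ≤ C → ∃ X0 : ℕ,
    ∀ (H : QHd c k n) (i0 : Fin c) (X k0 k1 : ℕ), X0 ≤ X → k0 ≤ k1 → k1 ≤ X →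
      κ * X ≤ (k1 : ℝ) - k0 → H.OkNS X C (io * X) →
      (∀ ω u i, i ≠ i0 → H.E (H.th ω) u i = 0) → RowN H i0 k0 k1 X cc π₀ →
      Pb (tup H.p H.line 1) (fun w =>
        |((H.tau (H.th (w 0)) - H.tau (H.th (w 1)) : ℤ) : ℝ)| ≤ s * 2 ^ X) ≤
          ε / (2 * (n + 2) ^ 2) →
      ∃ ep : (Fin c → ℤ) × (H.Vt × H.B) → Fin (n + 1) → Fin k → Fin c → ℝ,
        (∀ z m u i, |ep z m u i| ≤ (n + 1) * (C * (2 / s) ^ (n + 1))) ∧
        Pb H.p (fun ω => ¬ ∀ u i, |H.E (H.th ω) u i -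
          ∑ m, ep (H.line ω) m u i * ((H.tau (H.th ω) : ℝ) / 2 ^ X) ^ (m : ℕ)| ≤
            ((2 : ℝ) ^ k0)⁻¹ / s ^ (n + 2)) ≤ ε := by
  obtain ⟨π₀, hπ, io, hio, h⟩ := dd_small c k n hn hcc hcc1
    (ε := ε / (2 * (n + 2))) (by positivity) hκ
  refine ⟨π₀, hπ, io, hio, fun C hC => ?_⟩
  obtain ⟨X0, h⟩ := h C hC
  refine ⟨X0, fun H i0 X k0 k1 hX h01 h1X hkap hOk hE hrow hTM => ?_⟩
  have h3 := h H i0 X k0 k1 hX h01 h1X hkap hOk hE hrow
  obtain ⟨ep, hb, hP⟩ := Pool.TT37.con_d hOk.law H.line H.th H.tau n H.E hs hs1 hOk.tau_r hOk.E_b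
    h3 hTM
  refine ⟨ep, hb, hP.trans (le_of_eq ?_)⟩
  field_simp
  ring

end Pool.LV16
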